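import Pool.Agent.U922.SF.Fin
import Pool.Agent.H320R.OH.SymPoly

/-!
# Finiteness of polarized pure integral systems of rank `2 m`, `m` an odd prime

The integral systems `(T_ℓ)` over `ℚ` (the `ℓ`-adic realisations of pure motives with a lattice) which are
considered here have odd weight `w` and rank `2 m`, where `m` is an odd prime number; they are polarized and
pure, with good reduction outside `S` and semistable reduction in `S` (`PolarizedPure`, from the library
`U922`). We assume that for two primes `p ≠ q` outside `S` the Frobenius polynomial is irreducible over `ℚ`,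
and that no quotient of two of its complex roots is a root of unity. There are only finitely many
such systems up to isomorphism of all `T_ℓ`. There is no condition on the Hodge numbers.

The finiteness for systems whose Frobenius polynomials at two primes have no isotropic relation is the
theorem of `PolarizedGenericFrobenius`. Here it is proved that an irreducible polynomial of degree `2 m` has
no isotropic relation of even size, unless a quotient of two roots is a root of unity.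
-/

set_option autoImplicit false

namespace Pool.Agent.Results.MP_78e9a5_nt.IrreducibleTwicePrimeRank

open Polynomial NumberField Pool.Agent.Y800 Pool.Agent.R390.SF Pool.Agent.U922.SF Module

/-- The Frobenius polynomial at `p` is irreducible over `ℚ`, and no quotient of two different complex
roots is a root of unity. -/
def IrreducibleAt {n : ℕ} (p : ℕ) (T : IntegralSystem (⊥ : SubFld ℚ) n) : Prop :=
  ∀ 𝔭 : Ideal (𝓞 (⊥ : SubFld ℚ)), 𝔭.IsMaximal → (p : 𝓞 (⊥ : SubFld ℚ)) ∈ 𝔭 →
    Irreducible ((T.poly 𝔭).map (Int.castRingHom ℚ)) ∧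
    ∀ z ∈ (T.poly 𝔭).aroots ℂ, ∀ z' ∈ (T.poly 𝔭).aroots ℂ, z ≠ z' → ∀ N : ℕ, 0 < N → z ^ N ≠ z' ^ N

/-- The class of the theorem. -/
def InIrreducibleClass {n : ℕ} (S S' : Finset ℕ) (w : ℕ) (T : IntegralSystem (⊥ : SubFld ℚ) n) :
    Prop :=
  PolarizedPure S S' w T ∧ ∃ p q : ℕ, p.Prime ∧ q.Prime ∧ p ≠ q ∧ p ∉ S ∧ q ∉ S ∧
    IrreducibleAt p T ∧ IrreducibleAt q T

theorem generic {m w : ℕ} (hm : m.Prime) (hodd : Odd m) (hw : Odd w) {S : Finset ℕ}
    {T : IntegralSystem (⊥ : SubFld ℚ) (2 * m)} (hT : T.GoodSystem S w) {p : ℕ} (hp : p.Prime)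
    (hpS : p ∉ S) (hI : IrreducibleAt p T) : GenericAt w p T := by
  classical
  have htop : ((⊥ : SubFld ℚ).fixingSubgroup) = ⊤ := IntermediateField.fixingSubgroup_bot
  obtain ⟨P, σ, hP, hpP, hσ⟩ := exists_geom hp
  have hcore : ((⊥ : SubFld ℚ).fixingSubgroup).normalCore = ⊤ := by
    rw [htop]
    exact Subgroup.normalCore_eq_self ⊤
  refine ⟨P, σ, hP, hpP, hσ, by rw [hcore]; trivial, ?_⟩
  rintro d ⟨A, a, N, hN, ha, hA, hprod⟩
  by_contra hd
  have hsub : Subsingleton (GQ ⧸ (⊥ : SubFld ℚ).fixingSubgroup) := by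
    rw [htop]
    exact QuotientGroup.subsingleton_quotient_top
  set x₀ : GQ ⧸ (⊥ : SubFld ℚ).fixingSubgroup := ((1 : GQ) : GQ ⧸ (⊥ : SubFld ℚ).fixingSubgroup)
  obtain ⟨h1, h2⟩ := hA x₀
  have hfin : (∏ᶠ x, (A x).prod) = (A x₀).prod := by
    apply finprod_eq_single
    intro x hx
    exact absurd (Subsingleton.elim x x₀) hx
  rw [hfin] at hprod
  have hpm : (p : 𝓞 (⊥ : SubFld ℚ)) ∈ (cj x₀.out P).under (𝓞 (⊥ : SubFld ℚ)) := by
    rw [mem_under, map_natCast]
    exact cj_nat.2 hpP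
  have h5 : (cj x₀.out P).IsMaximal := cj_max hP
  have h6 : ((cj x₀.out P).under (𝓞 (⊥ : SubFld ℚ))).IsMaximal := Ideal.IsMaximal.under _ _
  set 𝔭 := (cj x₀.out P).under (𝓞 (⊥ : SubFld ℚ)) with h𝔭
  obtain ⟨hirr, hno⟩ := hI 𝔭 h6 hpm
  have hgood := hT.good p hp hpS 𝔭 h6 hpm
  have hroots : (((T.poly 𝔭).map (Int.castRingHom ℚ)).map (algebraMap ℚ ℂ)).roots =
      (T.poly 𝔭).aroots ℂ := by
    rw [aroots_def, Polynomial.map_map]
    congr 2
  have hmem : ∀ y : GQ, y ∈ (⊥ : SubFld ℚ).fixingSubgroup := fun y => by rw [htop]; trivial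
  have hpure : ∀ z ∈ (T.poly 𝔭).aroots ℂ, ‖z‖ ^ 2 = (p : ℝ) ^ w :=
    pure_frob hT hp hpS h5 (cj_nat.2 hpP) (σ := ⟨x₀.out⁻¹ * σ * x₀.out, hmem _⟩) (cj_frob hσ)
  have hfr : finrank ℚ (⊥ : SubFld ℚ) = 1 := IntermediateField.finrank_bot
  have heven : Even d := by
    rw [hfr, one_mul] at ha
    have h7 : Even (w * d) := ⟨a, by rw [← ha]; ring⟩
    rcases Nat.even_mul.1 h7 with h8 | h8
    · exact absurd h8 (Nat.not_even_iff_odd.2 hw)
    · exact h8
  obtain ⟨z, hz, z', hz', hne, M, hM, hzz⟩ := Pool.Agent.H320R.OH.no_isotropic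
    ((T.poly 𝔭).map (Int.castRingHom ℚ)) hirr hm hodd
    (by rw [hgood.monic.natDegree_map, hgood.natDegree]) hp.one_lt w
    (by rw [hroots]; exact hpure) (A := A x₀) (by rw [hroots]; exact h2)
    (by rw [h1]; omega) (by rw [h1]; exact heven)
    ⟨N, ((a * N : ℕ) : ℤ), hN, by rw [zpow_natCast]; exact hprod⟩
  rw [hroots] at hz hz'
  exact hno z hz z' hz' hne M hM hzz

theorem result (m w : ℕ) (hm : m.Prime) (hodd : Odd m) (hw : Odd w) (S S' : Finset ℕ) :
    ∃ (k : ℕ) (T : Fin k → IntegralSystem (⊥ : SubFld ℚ) (2 * m)),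
      (∀ i, PolarizedPure S S' w (T i)) ∧
      ∀ T' : IntegralSystem (⊥ : SubFld ℚ) (2 * m), InIrreducibleClass S S' w T' →
        ∃ i, Isomorphic (T i) T' := by
  have hn : 0 < 2 * m := by
    have := hm.pos
    omega
  obtain ⟨k, T, hT, hall⟩ := finiteness (F := (⊥ : SubFld ℚ)) hn w S S'
  refine ⟨k, T, fun i => (hT i).toPolarizedPure, fun T' hT' => hall T' ?_⟩
  obtain ⟨h1, p, q, hp, hq, hpq, hpS, hqS, hIp, hIq⟩ := hT'
  exact { toPolarizedPure := h1
          generic := ⟨p, q, hp, hq, hpq, hpS, hqS, generic hm hodd hw h1.toGoodSystem hp hpS hIp,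
            generic hm hodd hw h1.toGoodSystem hq hqS hIq⟩ }

end Pool.Agent.Results.MP_78e9a5_nt.IrreducibleTwicePrimeRank
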