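import Pool.Agent.U922.SF.Fin

/-!
# Finiteness of the polarized integral systems with generic Frobenius elements at two primes

`F` is a number field, `n ≥ 1`, `w` is a natural number, `S` and `S'` are finite sets of primes. We
consider the integral systems `(T_ℓ)_ℓ` of rank `n` over `F` with the properties in the problem of the
realisations of a polarized pure motive of weight `w` with a lattice: pure good reduction outside `S`,
semistable reduction in `S`, Hodge-Tate weights `≥ 0`, polarizations `T_ℓ × T_ℓ → ℤ_ℓ(-w)`, perfect for
`ℓ` outside `S'` (`PolarizedPure`). There is no condition on the Hodge numbers and no condition on the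
monodromy at the places in `S`; the representations may be reducible, also modulo `ℓ`.

**Theorem.** (1) There are only finitely many such systems, up to isomorphism of the `T_ℓ` for *all*
primes `ℓ`, for which there are two primes `p ≠ q` outside `S`, completely split in `F`, such that the
Frobenius eigenvalues at the places above `p` (resp. `q`) have no isotropic relation: there are no
families `A_x` of `d > 0` eigenvalues at the places `x` such that `A_x` and `p ^ w / A_x` together are
part of the eigenvalues and such that the product of all the `A_x` is a root of unity times
`p ^ (w [F : ℚ] d / 2)`, with an integral exponent. (The primes `p` and `q` may depend on the system.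
The condition holds for instance if the Frobenius tori at `p` and `q` are maximal, that is, as large as
the polarization allows.)

(2) If `w` and `[F : ℚ]` are odd and `n ≤ 3` the condition is satisfied automatically.

The other files of this folder assume one Jordan block of the monodromy at a prime, or regular Hodge
numbers. Isotropic relations are used in the starting file `MP_b4801b_ag/OneFrobenius` for the
semisimplicity of `V_ℓ`. The proof: the determinant of an isotropic stable subspace is a character of the absolute
Galois group of `F`; its transfer to the absolute Galois group of `ℚ` is, by Minkowski's theorem and
up to a power, a power of the cyclotomic character, and by purity this is an isotropic relation (for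
`T_ℓ / ℓ` a relation modulo `ℓ`, which comes from a relation of complex numbers if `ℓ` is large, with a
bound that only depends on the Frobenius polynomials above `p`). So `V_ℓ` and `T_ℓ / ℓ` are semisimple
with anisotropic forms, for large `ℓ` the self-dual lattices in `V_ℓ` are unique up to isomorphism, for
the remaining `ℓ` we apply the theorem of Jordan and Zassenhaus; finitely many Frobenius traces
determine all (Faltings).
-/

set_option autoImplicit false

namespace Pool.Agent.Results.MP_78e9a5_nt.PolarizedGenericFrobenius

open Pool.Agent.R390.SF Pool.Agent.U922.SF

theorem result :
    (∀ (F : SubFld ℚ) [FiniteDimensional ℚ F] (n : ℕ), 0 < n → ∀ (w : ℕ) (S S' : Finset ℕ),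
      ∃ (m : ℕ) (T : Fin m → IntegralSystem F n), (∀ i, InClass S S' w (T i)) ∧
        ∀ T' : IntegralSystem F n, InClass S S' w T' → ∃ i, Isomorphic (T i) T') ∧
    ∀ (F : SubFld ℚ) [FiniteDimensional ℚ F] (n w : ℕ) (S S' : Finset ℕ) (T : IntegralSystem F n),
      n ≤ 3 → Odd (w * Module.finrank ℚ F) → PolarizedPure S S' w T → InClass S S' w T :=
  ⟨fun _ _ _ hn w S S' => finiteness hn w S S',
    fun _ _ _ _ _ _ _ hn h hT => inClass_of_odd hT h hn⟩

end Pool.Agent.Results.MP_78e9a5_nt.PolarizedGenericFrobenius
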