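import Pool.Agent.R390.SF.Main
import Pool.Agent.R390.SF.Hodge

/-!
# Finiteness of pure integral systems of rank two over number fields of odd degree

`F` is a number field, `w ≥ 0`, `S` a finite set of primes. An integral system `(T_ℓ)_ℓ` of rank `n` over
`F` consists of the `ℓ`-adic realisations of a pure motive with a lattice.

(1) Let `w` and the degree `[F : ℚ]` be odd. There are only finitely many integral systems of rank two over
`F`, up to isomorphism of all `T_ℓ`, which are pure of weight `w`, with good reduction outside `S` and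
semistable reduction in `S`. There is no condition on the Hodge numbers, no polarization and no condition
of degeneration. For each of them there are only finitely many Galois stable lattices in the adelic
realisation up to multiplication by rational numbers.

(2) Let `2 r < w` (`w` can be even). The same holds for the systems of rank two with the Hodge numbers
`h^{r,w-r} = h^{w-r,r} = 1` over every number field `F` of odd degree; and over an arbitrary number field `F`
it holds for the primes `ℓ` in each set `Λ` of primes with only one place of `F` above `ℓ`.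

(3) In all ranks, if `w` and `[F : ℚ]` are odd: the dimension of each Galois stable subspace of `V_ℓ`, for all
`ℓ`, and of `T_ℓ / ℓ`, for almost all `ℓ`, is even. So the rank is even, and (1) follows from Faltings'
finiteness theorem for semisimple representations.

The library `Pool/Agent/R390/SF` (used for the maximally degenerate systems, in
`DegenerateOverNumberFields`, and for polarized systems, in `PolarizedRegularHodge`) has the
total weight of a stable subspace (`rat_wt`, `res_wt`), the finiteness theorem for irreducible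
systems and, unused so far, the irreducibility of the systems in (2) (`irr_of_two`).
-/

set_option autoImplicit false

namespace Pool.Agent.Results.MP_78e9a5_nt.RankTwoOddDegree

open Pool.Agent.R390.SF Pool.Agent.R390.SF.IntegralSystem NumberField

/-- The systems of the class `Cl` are finitely many, up to isomorphism of the `T_ℓ` for all `ℓ` in `Λ`. -/
def Finitely {F : SubFld ℚ} {n : ℕ} (Λ : Set ℕ) (Cl : IntegralSystem F n → Prop) : Prop :=
  ∃ (m : ℕ) (T : Fin m → IntegralSystem F n), (∀ i, Cl (T i)) ∧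
    ∀ T' : IntegralSystem F n, Cl T' → ∃ i, IsomorphicOn Λ (T i) T'

/-- There are only finitely many Galois stable lattices in the adelic realisation of `T`, up to
multiplication by rational numbers, on `Λ`. -/
def FewLattices {F : SubFld ℚ} {n : ℕ} (Λ : Set ℕ) (T : IntegralSystem F n) : Prop :=
  ∃ (m : ℕ) (L : Fin m → ∀ (ℓ : ℕ) [Fact ℓ.Prime], Submodule ℤ_[ℓ] (Fin n → ℚ_[ℓ])),
    (∀ i, T.IsLattice (L i)) ∧
      ∀ L' : (∀ (ℓ : ℕ) [Fact ℓ.Prime], Submodule ℤ_[ℓ] (Fin n → ℚ_[ℓ])), T.IsLattice L' →
        ∃ i, ProportionalOn Λ (L i) L'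

/-- All stable subspaces of `V_ℓ`, for all `ℓ`, and of `T_ℓ / ℓ`, for almost all `ℓ`, have even
dimension. -/
def EvenSubspaces {F : SubFld ℚ} {n : ℕ} (T : IntegralSystem F n) : Prop :=
  (∀ (ℓ : ℕ) [Fact ℓ.Prime] (U : Submodule ℚ_[ℓ] (Fin n → ℚ_[ℓ])), IsStable (T.rat ℓ) U →
    Even (Module.finrank ℚ_[ℓ] U)) ∧
  ∃ N : ℕ, ∀ (ℓ : ℕ) [Fact ℓ.Prime], N < ℓ → ∀ U : Submodule (ZMod ℓ) (Fin n → ZMod ℓ),
    IsStable (T.res ℓ) U → Even (Module.finrank (ZMod ℓ) U)

theorem even_of_weight {A w f d : ℕ} (hw : Odd w) (hf : Odd f) (h : A * 2 = w * (f * d)) :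
    Even d := by
  by_contra hd
  rw [Nat.not_even_iff_odd] at hd
  have h1 : Odd (w * (f * d)) := hw.mul (hf.mul hd)
  rw [← h] at h1
  exact (Nat.not_odd_iff_even.2 ⟨A, by ring⟩) h1

theorem even_subspaces {F : SubFld ℚ} [FiniteDimensional ℚ F] {n w : ℕ} {S : Finset ℕ}
    (hw : Odd w) (hF : Odd (Module.finrank ℚ F)) {T : IntegralSystem F n} (hT : T.PureSystem S w) :
    EvenSubspaces T := by
  constructor
  · intro ℓ _ U hU
    obtain ⟨A, hA, -⟩ := rat_wt hT U hU
    exact even_of_weight hw hF hA
  · obtain ⟨N, hN⟩ := res_wt hT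
    refine ⟨N, fun ℓ _ hℓ U hU => ?_⟩
    obtain ⟨A, hA, -⟩ := hN ℓ hℓ U hU
    exact even_of_weight hw hF hA

theorem bot_or_top {k : Type} [Field k] (U : Submodule k (Fin 2 → k))
    (h : Even (Module.finrank k U)) : U = ⊥ ∨ U = ⊤ := by
  have hdim : Module.finrank k (Fin 2 → k) = 2 := Module.finrank_fin_fun k
  have hle := Submodule.finrank_le U
  rw [hdim] at hle
  obtain ⟨c, hc⟩ := h
  rcases (by omega : Module.finrank k U = 0 ∨ Module.finrank k U = 2) with h | h
  · exact Or.inl (Submodule.finrank_eq_zero.1 h)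
  · exact Or.inr (Submodule.eq_top_of_finrank_eq (by rw [hdim, h]))

theorem result (F : SubFld ℚ) [FiniteDimensional ℚ F] (S : Finset ℕ) (w : ℕ) :
    (Odd w → Odd (Module.finrank ℚ F) →
      Finitely Set.univ (fun T : IntegralSystem F 2 => T.PureSystem S w) ∧
      ∀ T : IntegralSystem F 2, T.PureSystem S w → FewLattices Set.univ T) ∧
    (∀ (r : ℕ) (Λ : Set ℕ), 2 * r < w →
      (∀ (ℓ : ℕ) [Fact ℓ.Prime], ℓ ∈ Λ → Odd (Module.finrank ℚ F) ∨
        ∃! 𝔩 : Ideal (𝓞 F), 𝔩.IsMaximal ∧ (ℓ : 𝓞 F) ∈ 𝔩) →
      Finitely Λ (fun T : IntegralSystem F 2 => T.HodgeSystem S w (rankTwo r w)) ∧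
      ∀ T : IntegralSystem F 2, T.HodgeSystem S w (rankTwo r w) → FewLattices Λ T) ∧
    (Odd w → Odd (Module.finrank ℚ F) → ∀ (n : ℕ) (T : IntegralSystem F n), T.PureSystem S w →
      EvenSubspaces T) := by
  refine ⟨fun hw hF => ?_, fun r Λ hr hΛ => ?_, fun hw hF n T hT => even_subspaces hw hF hT⟩
  · have hI : ∀ T : IntegralSystem F 2, T.PureSystem S w → T.IsIrreducible Set.univ := by
      intro T hT
      have h1 := even_subspaces hw hF hT
      refine ⟨fun ℓ _ _ U hU => bot_or_top U (h1.1 ℓ U hU), ?_⟩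
      obtain ⟨N, hN⟩ := h1.2
      exact ⟨N, fun ℓ _ _ hℓ U hU => bot_or_top U (hN ℓ hℓ U hU)⟩
    exact ⟨finiteness (by norm_num) w S Set.univ (fun T : IntegralSystem F 2 => T.PureSystem S w)
      (fun _ hT => hT.toGoodSystem) hI, fun T hT => lattices (by norm_num) (hI T hT)⟩
  · have hI : ∀ T : IntegralSystem F 2, T.HodgeSystem S w (rankTwo r w) → T.IsIrreducible Λ :=
      fun T hT => irr_of_two hΛ hr hT
    exact ⟨finiteness (by norm_num) w S Λ
      (fun T : IntegralSystem F 2 => T.HodgeSystem S w (rankTwo r w))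
      (fun _ hT => hT.toGoodSystem) hI, fun T hT => lattices (by norm_num) (hI T hT)⟩

end Pool.Agent.Results.MP_78e9a5_nt.RankTwoOddDegree
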